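import Mathlib
import Pool.Agent.Q15.LP.A5

namespace Pool.Agent.Results.MP_0d4ca0_al.LoopWithoutAAIP

open Q15LP

/-- There is a loop of order 128 in which property (T) holds universally and which does not have
the antiautomorphic inverse property. -/
theorem result : ∃ (Q : Type) (mul : Q → Q → Q) (e : Q),
    Nat.card Q = 128 ∧ IsLoop mul e ∧ UniversalT mul ∧ ¬ AAIP mul e :=
  ⟨V Bool, mul7, e7, card_V, mul7_loop, universalT_of_core core7, not_aaip⟩

end Pool.Agent.Results.MP_0d4ca0_al.LoopWithoutAAIP
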